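import Pool.Agent.ETSP.Main2

/-!
# Euclidean TSP is in NP if and only if comparing sums of Euclidean lengths is in NP

The reduction from sums of lengths: given vectors `v_1, …, v_m` of `ℤ²` and `L`, take the vertices
of the centrally symmetric convex polygon with edges `± v_i`, and the bound `2 L`.  A closed tour
through the vertices of a convex polygon is at least as long as its boundary; for a zonogon this is
proved here by integrating over all directions the total variation of the projection of the tour
(which is at least twice the distance of the projections of two suitable vertices).
-/

namespace Pool.Agent.Results.MP_c00c90_lc.LengthSums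

open Pool.Agent.NPC Pool.Agent.NPC.Tour

/-- Euclidean TSP is in `NP` if and only if the comparison of sums of Euclidean lengths of integer
vectors with integers is in `NP`; the same equivalence holds for coordinates bounded in unary; the
comparison of sums of lengths reduces to Euclidean TSP in both cases. -/
theorem result : (InNP (lang ETSPZ) ↔ InNP (lang LENZ)) ∧ (InNP (lang ETSPU) ↔ InNP (lang LENU)) ∧
    Reduces (lang LENZ) (lang ETSPZ) ∧ Reduces (lang LENU) (lang ETSPU) :=
  ⟨etspZ_inNP_iff, etspU_inNP_iff, lenZ_le, lenU_le⟩

end Pool.Agent.Results.MP_c00c90_lc.LengthSums
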