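import Pool.Agent.H536R2.Adv.Main

set_option autoImplicit false

namespace Pool.Agent.Results.MP_c00c90_lc.PolynomialUniverses

open Pool.Agent.H536R2.Adv

/-- **EXACT EUCLIDEAN TSP is in `NP/poly` on every sequence of point sets of polynomial size**: if
`U N` is, for every `N`, a set of at most `q N` integer points (`q` a polynomial, no restriction on
the coordinates), then EXACT EUCLIDEAN TSP restricted to the instances of length `N` with points in
`U N` belongs to `NP/poly`. In particular this holds for the points whose coordinates are bounded by
a polynomial in the length of the instance. -/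
theorem result (U : ℕ → Finset (ℤ × ℤ)) (q : Polynomial ℕ) (hU : ∀ N, (U N).card ≤ q.eval N) :
    InNPPoly (ExactTSPOn U) :=
  Pool.Agent.NPC.H536Adv.main U q hU

end Pool.Agent.Results.MP_c00c90_lc.PolynomialUniverses
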